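import Pool.Agent.K3h5.FF.Stm

/-! Brick BAD of project FF (helper5): bad permutations are rare. -/

set_option autoImplicit false
set_option linter.all false

open MeasureTheory Filter Topology Set

namespace Pool.Agent.K3h79.FF

open Pool.Agent.K3h5.FF

theorem pr_cover {n : ℕ} {P : Equiv.Perm (Fin n) → ℝ} (hP : ∀ π, 0 ≤ P π) {ι : Type}
    (s : Finset ι) (A : ι → Set (Equiv.Perm (Fin n))) (E : Set (Equiv.Perm (Fin n)))
    (h : ∀ π ∈ E, ∃ i ∈ s, π ∈ A i) : pr P E ≤ ∑ i ∈ s, pr P (A i) := by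
  classical
  unfold pr
  rw [Finset.sum_comm]
  refine Finset.sum_le_sum fun π _ => ?_
  have h0 : ∀ i ∈ s, 0 ≤ (if π ∈ A i then P π else 0) := fun i _ => by
    split_ifs
    exacts [hP π, le_rfl]
  by_cases hE : π ∈ E
  · rw [if_pos hE]
    obtain ⟨i, hi, hA⟩ := h π hE
    have h1 := Finset.single_le_sum h0 hi
    rw [if_pos hA] at h1
    exact h1
  · rw [if_neg hE]
    exact Finset.sum_nonneg h0

theorem pr_two {n : ℕ} {P : Equiv.Perm (Fin n) → ℝ} (hP : ∀ π, 0 ≤ P π)
    (E E₁ E₂ : Set (Equiv.Perm (Fin n))) (h : ∀ π ∈ E, π ∈ E₁ ∨ π ∈ E₂) :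
    pr P E ≤ pr P E₁ + pr P E₂ := by
  have h1 := pr_cover hP (Finset.univ : Finset Bool) (fun b => if b then E₁ else E₂) E
    (fun π hπ => (h π hπ).elim (fun h => ⟨true, Finset.mem_univ _, h⟩)
      (fun h => ⟨false, Finset.mem_univ _, h⟩))
  rw [Fintype.sum_bool] at h1
  exact h1

theorem pr_nonneg {n : ℕ} {P : Equiv.Perm (Fin n) → ℝ} (hP : ∀ π, 0 ≤ P π)
    (E : Set (Equiv.Perm (Fin n))) : 0 ≤ pr P E := by
  classical
  unfold pr
  refine Finset.sum_nonneg fun π _ => ?_
  split_ifs
  exacts [hP π, le_rfl]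

theorem labP_range {n : ℕ} {π : Equiv.Perm (Fin n)} {l : Label} {a : ℤ} (h : LabP π l a) :
    0 ≤ a ∧ a < n := by
  cases l with
  | inl k =>
    obtain ⟨p, hp, _⟩ := h
    rw [← hp]
    exact ⟨Int.natCast_nonneg _, by exact_mod_cast (π p).2⟩
  | inr j =>
    obtain ⟨p, _, hp⟩ := h
    rw [← hp]
    exact ⟨Int.natCast_nonneg _, by exact_mod_cast (π p).2⟩

theorem t_BAD : S_ETB → S_BAD := by
  intro hE P lam phi hM S B hB
  classical
  obtain ⟨C, hC, hb⟩ := hM.bound
  obtain ⟨h1, _, _⟩ := hE P C hC hM.nonneg hb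
  set w : ℝ := ((Win S).card : ℝ) with hw
  have hw0 : 0 ≤ w := Nat.cast_nonneg _
  set K : ℝ := w * (B + 1) * C + 2 * (w * w * (2 * B + 1)) * C ^ 2 with hK
  have key : ∀ n : ℕ, max B 2 ≤ n → pr (P n) {π | ¬ GoodP n B S π} ≤ K / n := by
    intro n hn
    have hBn : B ≤ n := (le_max_left _ _).trans hn
    have h2n : 2 ≤ n := (le_max_right _ _).trans hn
    have hn0 : (0 : ℝ) < n := by
      have : 0 < n := by omega
      exact_mod_cast this
    have hn2 : (2 : ℝ) ≤ n := by exact_mod_cast h2n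
    have hP := hM.nonneg n
    -- the two kinds of bad events
    let s₁ : Finset (Label × ℕ) := Win S ×ˢ Finset.range (B + 1)
    let A₁ : Label × ℕ → Set (Equiv.Perm (Fin n)) := fun x =>
      {π | ∀ i : Fin 1, LabP π ((fun _ => x.1 : Fin 1 → Label) i) ((fun _ => (x.2 : ℤ) : Fin 1 → ℤ) i)}
    let s₂ : Finset ((Label × Label) × (ℕ × ℤ)) :=
      (Win S ×ˢ Win S) ×ˢ (Finset.range n ×ˢ ((Finset.Icc (-(B : ℤ)) B).erase 0))
    let A₂ : (Label × Label) × (ℕ × ℤ) → Set (Equiv.Perm (Fin n)) := fun x =>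
      {π | ∀ i : Fin 2, LabP π ((![x.1.1, x.1.2] : Fin 2 → Label) i)
        ((![(x.2.1 : ℤ), (x.2.1 : ℤ) + x.2.2] : Fin 2 → ℤ) i)}
    have hcov : ∀ π ∈ {π : Equiv.Perm (Fin n) | ¬ GoodP n B S π},
        π ∈ {π | ∃ x ∈ s₁, π ∈ A₁ x} ∨ π ∈ {π | ∃ x ∈ s₂, π ∈ A₂ x} := by
      intro π hπ
      by_contra hcon
      rw [not_or] at hcon
      obtain ⟨c1, c2⟩ := hcon
      apply hπ
      refine ⟨hB, hBn, fun l hl a ha => ?_⟩
      obtain ⟨ha0, han⟩ := labP_range ha
      obtain ⟨b, rfl⟩ := Int.eq_ofNat_of_zero_le ha0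
      refine ⟨?_, fun l' hl' a' ha' hne => ?_⟩
      · by_contra hle
        apply c1
        refine ⟨(l, b), ?_, fun i => ha⟩
        rw [Finset.mem_product]
        refine ⟨hl, ?_⟩
        rw [Finset.mem_range]
        show b < B + 1
        have h3 : (b : ℤ) ≤ B := not_lt.1 hle
        have h4 : b ≤ B := by exact_mod_cast h3
        omega
      · by_contra hle
        apply c2
        refine ⟨((l, l'), (b, a' - b)), ?_, ?_⟩
        · rw [Finset.mem_product, Finset.mem_product, Finset.mem_product]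
          refine ⟨⟨hl, hl'⟩, ?_, ?_⟩
          · rw [Finset.mem_range]
            exact_mod_cast han
          · rw [Finset.mem_erase, Finset.mem_Icc]
            have h3 : |(b : ℤ) - a'| ≤ B := not_lt.1 hle
            rw [abs_le] at h3
            refine ⟨?_, ?_, ?_⟩
            · show a' - (b : ℤ) ≠ 0
              intro h
              exact hne (by omega)
            · show -(B : ℤ) ≤ a' - b
              omega
            · show a' - (b : ℤ) ≤ B
              omega
        · intro i
          fin_cases i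
          · exact ha
          · show LabP π l' ((b : ℤ) + (a' - b))
            rw [add_sub_cancel]
            exact ha'
    have e1 : pr (P n) {π | ∃ x ∈ s₁, π ∈ A₁ x} ≤ w * (B + 1) * C / n := by
      refine (pr_cover hP s₁ A₁ _ fun π hπ => hπ).trans ?_
      have h3 : ∀ x ∈ s₁, pr (P n) (A₁ x) ≤ C / n := by
        intro x _
        have h4 := h1 n 1 (fun _ => x.1) (fun _ => (x.2 : ℤ)) (fun i j _ => Subsingleton.elim i j)
        rw [pow_one, Nat.descFactorial_one] at h4
        exact h4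
      refine (Finset.sum_le_card_nsmul s₁ _ _ h3).trans ?_
      rw [nsmul_eq_mul, Finset.card_product, Finset.card_range]
      push_cast
      rw [← hw]
      apply le_of_eq
      ring
    have e2 : pr (P n) {π | ∃ x ∈ s₂, π ∈ A₂ x} ≤ 2 * (w * w * (2 * B + 1)) * C ^ 2 / n := by
      refine (pr_cover hP s₂ A₂ _ fun π hπ => hπ).trans ?_
      have hd : (n : ℝ) ^ 2 / 2 ≤ (n.descFactorial 2 : ℝ) := by
        have h4 : (n.descFactorial 2 : ℝ) = (n - 1) * n := by
          have h5 : n.descFactorial 2 = (n - 1) * n := by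
            simp [Nat.descFactorial]
          rw [h5]
          push_cast [Nat.cast_sub (by omega : 1 ≤ n)]
          ring
        rw [h4]
        nlinarith
      have h3 : ∀ x ∈ s₂, pr (P n) (A₂ x) ≤ 2 * C ^ 2 / (n : ℝ) ^ 2 := by
        intro x hx
        rw [Finset.mem_product, Finset.mem_product, Finset.mem_product, Finset.mem_erase] at hx
        have hx0 := hx.2.2.1
        have h4 := h1 n 2 ![x.1.1, x.1.2] ![(x.2.1 : ℤ), (x.2.1 : ℤ) + x.2.2] (by
          intro i j hij
          fin_cases i <;> fin_cases j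
          · rfl
          · exfalso
            apply hx0
            have h5 : (x.2.1 : ℤ) = (x.2.1 : ℤ) + x.2.2 := hij
            omega
          · exfalso
            apply hx0
            have h5 : (x.2.1 : ℤ) + x.2.2 = (x.2.1 : ℤ) := hij
            omega
          · rfl)
        refine h4.trans ?_
        have h6 : C ^ 2 / (n.descFactorial 2 : ℝ) ≤ C ^ 2 / ((n : ℝ) ^ 2 / 2) :=
          div_le_div_of_nonneg_left (by positivity) (by positivity) hd
        refine h6.trans (le_of_eq ?_)
        field_simp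
      refine (Finset.sum_le_card_nsmul s₂ _ _ h3).trans ?_
      have hcard : (s₂.card : ℝ) ≤ w * w * (n * (2 * B + 1)) := by
        have h4 : s₂.card = ((Win S).card * (Win S).card) *
            (n * ((Finset.Icc (-(B : ℤ)) B).erase 0).card) := by
          show ((Win S ×ˢ Win S) ×ˢ (Finset.range n ×ˢ
            ((Finset.Icc (-(B : ℤ)) B).erase 0))).card = _
          rw [Finset.card_product, Finset.card_product, Finset.card_product, Finset.card_range]
        have h5 : ((Finset.Icc (-(B : ℤ)) B).erase 0).card ≤ 2 * B + 1 := by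
          refine (Finset.card_erase_le).trans ?_
          rw [Int.card_Icc]
          omega
        rw [h4]
        push_cast
        rw [← hw]
        have h6 : (((Finset.Icc (-(B : ℤ)) B).erase 0).card : ℝ) ≤ 2 * B + 1 := by
          exact_mod_cast h5
        gcongr
      rw [nsmul_eq_mul]
      have h7 : (0 : ℝ) ≤ 2 * C ^ 2 / (n : ℝ) ^ 2 := by positivity
      refine (mul_le_mul_of_nonneg_right hcard h7).trans (le_of_eq ?_)
      field_simp
    refine (pr_two hP _ _ _ hcov).trans ((add_le_add e1 e2).trans (le_of_eq ?_))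
    rw [hK, ← add_div]
  exact squeeze_zero' (Eventually.of_forall fun n => pr_nonneg (hM.nonneg n) _)
    (eventually_atTop.2 ⟨max B 2, key⟩) (tendsto_const_div_atTop_nhds_zero_nat K)

end Pool.Agent.K3h79.FF
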